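import Pool.Agent.Helper73.ZA.ZCE
import Mathlib.MeasureTheory.Function.ContinuousMapDense

/-!
Row ZAP of the sheet ZA: approximation by continuous functions.
-/

open MeasureTheory Filter Topology Finset
open scoped ComplexConjugate BoundedContinuousFunction

namespace Pool.Agent.Helper73.ZA

open Pool.Agent.Helper98.ZA

theorem ret_cont : Continuous ret := by
  unfold ret
  have h : Continuous fun z : ℂ => (max 1 ‖z‖)⁻¹ :=
    (continuous_const.max continuous_norm).inv₀ fun z =>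
      (lt_of_lt_of_le one_pos (le_max_left _ _)).ne'
  exact (Complex.continuous_ofReal.comp h).mul continuous_id

/-- the radial retraction onto the disc of radius `b` -/
noncomputable def reb (b : ℝ) (z : ℂ) : ℂ := b * ret (z / b)

theorem reb_cont (b : ℝ) : Continuous (reb b) := by
  unfold reb
  exact continuous_const.mul (ret_cont.comp (continuous_id.div_const _))

theorem reb_norm {b : ℝ} (hb : 0 < b) (z : ℂ) : ‖reb b z‖ ≤ b := by
  rw [reb, norm_mul, Complex.norm_real, Real.norm_of_nonneg hb.le]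
  calc b * ‖ret (z / b)‖ ≤ b * 1 := mul_le_mul_of_nonneg_left (ret_norm _) hb.le
    _ = b := mul_one b

theorem reb_dist {b : ℝ} (hb : 0 < b) (w z : ℂ) (hw : ‖w‖ ≤ b) :
    ‖w - reb b z‖ ≤ 2 * ‖w - z‖ := by
  have hb0 : (b : ℂ) ≠ 0 := by exact_mod_cast hb.ne'
  have h1 : ‖w / b‖ ≤ 1 := by
    rw [norm_div, Complex.norm_real, Real.norm_of_nonneg hb.le]
    exact div_le_one_of_le₀ hw hb.le
  have h2 := ret_dist (w / b) (z / b) h1
  have e1 : w - reb b z = b * (w / b - ret (z / b)) := by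
    rw [reb]; field_simp
  have e2 : w - z = b * (w / b - z / b) := by field_simp
  rw [e1, e2, norm_mul, norm_mul]
  have h3 : 0 ≤ ‖(b : ℂ)‖ := norm_nonneg _
  nlinarith

theorem st_ZAP : ST_ZAP := by
  intro Y _ _ _ _ ν _ G b ε hG hGb hε
  have hb : 0 ≤ b := by
    obtain ⟨y⟩ : Nonempty Y := nonempty_of_isProbabilityMeasure ν
    exact (norm_nonneg _).trans (hGb y)
  rcases hb.eq_or_lt with hb0 | hb0
  · refine ⟨0, fun y => by simp [← hb0], ?_⟩
    have : ∀ y, ‖G y - (0 : C(Y, ℂ)) y‖ ^ 2 = 0 := by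
      intro y
      have h1 : ‖G y‖ ≤ 0 := by rw [hb0]; exact hGb y
      have h2 : G y = 0 := norm_le_zero_iff.1 h1
      simp [h2]
    rw [integral_congr_ae (Eventually.of_forall this)]
    simpa using hε.le
  set δ : ℝ := ε / (4 * b) with hδ
  have hδ0 : 0 < δ := by positivity
  have hGi : MemLp G 1 ν := MemLp.of_bound hG.aestronglyMeasurable b (Eventually.of_forall hGb)
  obtain ⟨g, hg, hgi⟩ := hGi.exists_boundedContinuous_eLpNorm_sub_le ENNReal.one_ne_top
    (ε := ENNReal.ofReal δ) (ENNReal.ofReal_pos.2 hδ0).ne'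
  have hgi' : Integrable g ν := memLp_one_iff_integrable.1 hgi
  have hGi' : Integrable G ν := memLp_one_iff_integrable.1 hGi
  have hd : ∫ y, ‖G y - g y‖ ∂ν ≤ δ := by
    have h3 := integral_norm_eq_lintegral_enorm (hGi'.sub hgi').aestronglyMeasurable
    rw [eLpNorm_one_eq_lintegral_enorm] at hg
    have h4 : ∫ y, ‖G y - g y‖ ∂ν = ∫ y, ‖(G - ⇑g) y‖ ∂ν := rfl
    rw [h4, h3]
    exact ENNReal.toReal_le_of_le_ofReal hδ0.le hg
  refine ⟨⟨fun y => reb b (g y), (reb_cont b).comp g.continuous⟩, fun y => reb_norm hb0 _, ?_⟩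
  have hpt : ∀ y, ‖G y - reb b (g y)‖ ^ 2 ≤ 4 * b * ‖G y - g y‖ := by
    intro y
    have e1 := reb_dist hb0 (G y) (g y) (hGb y)
    have e2 : ‖G y - reb b (g y)‖ ≤ 2 * b := by
      calc ‖G y - reb b (g y)‖ ≤ ‖G y‖ + ‖reb b (g y)‖ := norm_sub_le _ _
        _ ≤ b + b := add_le_add (hGb y) (reb_norm hb0 _)
        _ = 2 * b := by ring
    have e5 : 0 ≤ ‖G y - reb b (g y)‖ := norm_nonneg _
    calc ‖G y - reb b (g y)‖ ^ 2 = ‖G y - reb b (g y)‖ * ‖G y - reb b (g y)‖ := sq _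
      _ ≤ (2 * b) * (2 * ‖G y - g y‖) := mul_le_mul e2 e1 e5 (by positivity)
      _ = 4 * b * ‖G y - g y‖ := by ring
  have hLi : Integrable (fun y => ‖G y - reb b (g y)‖ ^ 2) ν := by
    refine Integrable.of_bound (C := (2 * b) ^ 2) ?_ (Eventually.of_forall fun y => ?_)
    · exact ((hG.sub ((reb_cont b).comp g.continuous).measurable).norm.pow_const
        2).aestronglyMeasurable
    · have e2 : ‖G y - reb b (g y)‖ ≤ 2 * b := by
        calc ‖G y - reb b (g y)‖ ≤ ‖G y‖ + ‖reb b (g y)‖ := norm_sub_le _ _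
          _ ≤ b + b := add_le_add (hGb y) (reb_norm hb0 _)
          _ = 2 * b := by ring
      rw [Real.norm_of_nonneg (by positivity)]
      exact pow_le_pow_left₀ (norm_nonneg _) e2 2
  calc ∫ y, ‖G y - reb b (g y)‖ ^ 2 ∂ν ≤ ∫ y, 4 * b * ‖G y - g y‖ ∂ν :=
        integral_mono hLi ((hGi'.sub hgi').norm.const_mul _) hpt
    _ = 4 * b * ∫ y, ‖G y - g y‖ ∂ν := integral_const_mul _ _
    _ ≤ 4 * b * δ := mul_le_mul_of_nonneg_left hd (by positivity)
    _ = ε := by rw [hδ]; field_simp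

end Pool.Agent.Helper73.ZA
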