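import Pool.Agent.Helper98.ZA.Stmts
import Pool.Agent.Helper98.TW.Basic
import Mathlib.Probability.Martingale.Convergence
import Mathlib.MeasureTheory.Function.FactorsThrough

/-!
Row ZCE of the sheet ZA: a bounded function is near a function of finitely many coordinates.
-/

open MeasureTheory Filter Topology Finset
open scoped ComplexConjugate

namespace Pool.Agent.Helper73.ZA

open Pool.Agent.Helper98.ZA
open Pool.Agent.Helper98.TW (SA AM am_of_sets)

/-- the radial retraction onto the unit disc -/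
noncomputable def ret (z : ℂ) : ℂ := ((max 1 ‖z‖)⁻¹ : ℝ) * z

theorem ret_norm (z : ℂ) : ‖ret z‖ ≤ 1 := by
  have h0 : 0 < max 1 ‖z‖ := lt_of_lt_of_le one_pos (le_max_left _ _)
  rw [ret, norm_mul, Complex.norm_real, norm_inv, Real.norm_of_nonneg h0.le, inv_mul_le_iff₀ h0,
    mul_one]
  exact le_max_right _ _

theorem ret_dist (w z : ℂ) (hw : ‖w‖ ≤ 1) : ‖w - ret z‖ ≤ 2 * ‖w - z‖ := by
  have h1 : ‖z - ret z‖ ≤ ‖w - z‖ := by
    by_cases hz : ‖z‖ ≤ 1
    · have : ret z = z := by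
        rw [ret, max_eq_left hz]; simp
      rw [this, sub_self, norm_zero]
      exact norm_nonneg _
    · have hz1 : 1 < ‖z‖ := not_le.1 hz
      have e1 : z - ret z = ((1 - ‖z‖⁻¹ : ℝ) : ℂ) * z := by
        rw [ret, max_eq_right hz1.le]
        push_cast
        ring
      have h0 : 0 ≤ 1 - ‖z‖⁻¹ := by
        rw [sub_nonneg]
        exact inv_le_one_of_one_le₀ hz1.le
      rw [e1, norm_mul, Complex.norm_real, Real.norm_of_nonneg h0]
      have e2 : (1 - ‖z‖⁻¹) * ‖z‖ = ‖z‖ - 1 := by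
        have : ‖z‖ ≠ 0 := by linarith
        field_simp
      rw [e2]
      have := norm_sub_norm_le z w
      rw [norm_sub_rev] at this
      linarith
  calc ‖w - ret z‖ = ‖(w - z) + (z - ret z)‖ := by congr 1; ring
    _ ≤ ‖w - z‖ + ‖z - ret z‖ := norm_add_le _ _
    _ ≤ 2 * ‖w - z‖ := by linarith

theorem ret_meas : Measurable ret := by
  unfold ret
  fun_prop

section

variable {Y : Type} [m0 : MeasurableSpace Y] {ν : Measure Y} [IsProbabilityMeasure ν]

/-- Levy's theorem for the first coordinates -/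
theorem levy {u : ℕ → Y → ℂ} (hu : ∀ k, Measurable (u k)) (g : Y → ℝ) (hg : Integrable g ν)
    (hgm : StronglyMeasurable[⨆ k, MeasurableSpace.comap (u k) inferInstance] g) (δ : ℝ)
    (hδ : 0 < δ) : ∃ k₀ : ℕ, ∀ k ≥ k₀, ∃ f : (Fin k → ℂ) → ℝ, Measurable f ∧
      Integrable (fun y => f (pr u k y)) ν ∧ ∫ y, ‖g y - f (pr u k y)‖ ∂ν ≤ δ := by
  have hprm : ∀ k, Measurable (pr u k) := fun k => measurable_pi_lambda _ fun i => hu i
  let 𝒢 : ℕ → MeasurableSpace Y := fun k => MeasurableSpace.comap (pr u k) inferInstance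
  have hle : ∀ k, 𝒢 k ≤ m0 := fun k => (hprm k).comap_le
  have hmono : Monotone 𝒢 := by
    intro k l hkl
    let re : (Fin l → ℂ) → (Fin k → ℂ) := fun z i => z ⟨i, lt_of_lt_of_le i.2 hkl⟩
    have hre : Measurable re := measurable_pi_lambda _ fun i => measurable_pi_apply _
    have e : pr u k = re ∘ pr u l := rfl
    show MeasurableSpace.comap (pr u k) _ ≤ MeasurableSpace.comap (pr u l) _
    rw [e, ← MeasurableSpace.comap_comp]
    exact MeasurableSpace.comap_mono hre.comap_le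
  let ℱ : Filtration ℕ m0 := ⟨𝒢, hmono, hle⟩
  have hsup : (⨆ k, MeasurableSpace.comap (u k) inferInstance) ≤ ⨆ n, ℱ n := by
    refine iSup_le fun k => le_iSup_of_le (k + 1) ?_
    let ev : (Fin (k + 1) → ℂ) → ℂ := fun z => z ⟨k, Nat.lt_succ_self k⟩
    have hev : Measurable ev := measurable_pi_apply _
    have e : u k = ev ∘ pr u (k + 1) := rfl
    show MeasurableSpace.comap (u k) _ ≤ MeasurableSpace.comap (pr u (k + 1)) _
    conv_lhs => rw [e]
    rw [← MeasurableSpace.comap_comp]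
    exact MeasurableSpace.comap_mono hev.comap_le
  have ht := hg.tendsto_eLpNorm_condExp (ℱ := ℱ) (hgm.mono hsup)
  have hev := ht.eventually (ge_mem_nhds (show (0 : ENNReal) < ENNReal.ofReal δ from
    ENNReal.ofReal_pos.2 hδ))
  obtain ⟨k₀, hk₀⟩ := eventually_atTop.1 hev
  refine ⟨k₀, fun k hk => ?_⟩
  have hm : Measurable[𝒢 k] (ν[g|ℱ k]) :=
    (stronglyMeasurable_condExp (m := 𝒢 k) (μ := ν) (f := g)).measurable
  obtain ⟨f, hf, hfe⟩ := hm.exists_eq_measurable_comp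
  have hfe' : (fun y => f (pr u k y)) = ν[g|ℱ k] := hfe.symm
  refine ⟨f, hf, ?_, ?_⟩
  · rw [hfe']
    exact integrable_condExp
  · have h1 := hk₀ k hk
    rw [eLpNorm_one_eq_lintegral_enorm] at h1
    have h2 : Integrable (fun y => (ν[g|ℱ k]) y - g y) ν := integrable_condExp.sub hg
    have h3 := integral_norm_eq_lintegral_enorm h2.aestronglyMeasurable
    have h4 : ∫ y, ‖g y - f (pr u k y)‖ ∂ν = ∫ y, ‖(ν[g|ℱ k]) y - g y‖ ∂ν := by
      refine integral_congr_ae (Eventually.of_forall fun y => ?_)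
      show ‖g y - f (pr u k y)‖ = ‖(ν[g|ℱ k]) y - g y‖
      rw [norm_sub_rev]
      congr 2
      exact congrFun hfe' y
    rw [h4, h3]
    exact ENNReal.toReal_le_of_le_ofReal hδ.le h1

end

theorem st_ZCE : ST_ZCE := by
  intro Y m0 ν _ S u hu F ε hF hF1 hε
  have hAM : AM ν (⨆ k, MeasurableSpace.comap (u k) inferInstance : MeasurableSpace Y) F :=
    am_of_sets (𝒜 := m0) hu.gen hF.aestronglyMeasurable
  obtain ⟨G, hG, hFG⟩ := hAM
  have hsub : (⨆ k, MeasurableSpace.comap (u k) inferInstance) ≤ m0 :=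
    iSup_le fun k => (hu.meas k).comap_le
  have hGb : ∀ᵐ y ∂ν, ‖G y‖ ≤ 1 := by
    filter_upwards [hFG] with y hy
    rw [← hy]
    exact hF1 y
  have hGi : Integrable G ν :=
    Integrable.of_bound (hG.mono hsub).aestronglyMeasurable 1 hGb
  have hre : StronglyMeasurable[⨆ k, MeasurableSpace.comap (u k) inferInstance]
      (fun y => (G y).re) := Complex.continuous_re.comp_stronglyMeasurable hG
  have him : StronglyMeasurable[⨆ k, MeasurableSpace.comap (u k) inferInstance]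
      (fun y => (G y).im) := Complex.continuous_im.comp_stronglyMeasurable hG
  obtain ⟨k₁, h₁⟩ := levy hu.meas (fun y => (G y).re) hGi.re hre (ε / 8) (by positivity)
  obtain ⟨k₂, h₂⟩ := levy hu.meas (fun y => (G y).im) hGi.im him (ε / 8) (by positivity)
  set k := max k₁ k₂ with hk
  obtain ⟨f₁, hf₁, hi₁, hd₁⟩ := h₁ k (le_max_left _ _)
  obtain ⟨f₂, hf₂, hi₂, hd₂⟩ := h₂ k (le_max_right _ _)
  have hprm : Measurable (pr u k) := measurable_pi_lambda _ fun i => hu.meas i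
  set f₀ : (Fin k → ℂ) → ℂ := fun z => (f₁ z : ℂ) + (f₂ z : ℂ) * Complex.I with hf₀
  have hf₀m : Measurable f₀ :=
    (Complex.measurable_ofReal.comp hf₁).add ((Complex.measurable_ofReal.comp hf₂).mul_const _)
  refine ⟨k, fun z => ret (f₀ z), ret_meas.comp hf₀m, fun z => ret_norm _, ?_⟩
  have hpt : ∀ᵐ y ∂ν, ‖F y - ret (f₀ (pr u k y))‖ ^ 2 ≤
      4 * (‖(G y).re - f₁ (pr u k y)‖ + ‖(G y).im - f₂ (pr u k y)‖) := by
    filter_upwards [hFG] with y hy
    have e1 := ret_dist (F y) (f₀ (pr u k y)) (hF1 y)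
    have e2 : ‖F y - ret (f₀ (pr u k y))‖ ≤ 2 := by
      calc ‖F y - ret (f₀ (pr u k y))‖ ≤ ‖F y‖ + ‖ret (f₀ (pr u k y))‖ := norm_sub_le _ _
        _ ≤ 1 + 1 := add_le_add (hF1 y) (ret_norm _)
        _ = 2 := by norm_num
    have e3 : ‖F y - f₀ (pr u k y)‖ ≤
        ‖(G y).re - f₁ (pr u k y)‖ + ‖(G y).im - f₂ (pr u k y)‖ := by
      have e4 : F y - f₀ (pr u k y) = (((G y).re - f₁ (pr u k y) : ℝ) : ℂ) +
          (((G y).im - f₂ (pr u k y) : ℝ) : ℂ) * Complex.I := by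
        rw [hy, hf₀]
        apply Complex.ext <;> simp
      rw [e4]
      refine (norm_add_le _ _).trans ?_
      rw [norm_mul, Complex.norm_I, mul_one, Complex.norm_real, Complex.norm_real]
    have e5 : 0 ≤ ‖F y - ret (f₀ (pr u k y))‖ := norm_nonneg _
    nlinarith
  have hr₁ : Integrable (fun y => (G y).re - f₁ (pr u k y)) ν := hGi.re.sub hi₁
  have hr₂ : Integrable (fun y => (G y).im - f₂ (pr u k y)) ν := hGi.im.sub hi₂
  have hLi : Integrable (fun y => ‖F y - ret (f₀ (pr u k y))‖ ^ 2) ν := by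
    refine Integrable.of_bound (C := 4) ?_ (Eventually.of_forall fun y => ?_)
    · exact ((hF.sub (ret_meas.comp (hf₀m.comp hprm))).norm.pow_const 2).aestronglyMeasurable
    · have e2 : ‖F y - ret (f₀ (pr u k y))‖ ≤ 2 := by
        calc ‖F y - ret (f₀ (pr u k y))‖ ≤ ‖F y‖ + ‖ret (f₀ (pr u k y))‖ := norm_sub_le _ _
          _ ≤ 1 + 1 := add_le_add (hF1 y) (ret_norm _)
          _ = 2 := by norm_num
      have e5 : 0 ≤ ‖F y - ret (f₀ (pr u k y))‖ := norm_nonneg _
      rw [Real.norm_of_nonneg (by positivity)]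
      nlinarith
  calc ∫ y, ‖F y - ret (f₀ (pr u k y))‖ ^ 2 ∂ν
      ≤ ∫ y, 4 * (‖(G y).re - f₁ (pr u k y)‖ + ‖(G y).im - f₂ (pr u k y)‖) ∂ν :=
        integral_mono_ae hLi ((hr₁.norm.add hr₂.norm).const_mul 4) hpt
    _ = 4 * (∫ y, ‖(G y).re - f₁ (pr u k y)‖ ∂ν + ∫ y, ‖(G y).im - f₂ (pr u k y)‖ ∂ν) := by
        rw [integral_const_mul, integral_add hr₁.norm hr₂.norm]
    _ ≤ 4 * (ε / 8 + ε / 8) := by
        refine mul_le_mul_of_nonneg_left (add_le_add hd₁ hd₂) (by norm_num)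
    _ = ε := by ring

end Pool.Agent.Helper73.ZA
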