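import Pool.Agent.Helper98.ZA.Stmts
import Pool.Agent.Helper91.MD.WMR

/-!
Row ZMR of the sheet ZA: the Moebius function in short progressions.
-/

open Filter Topology Finset

namespace Pool.Agent.Helper73.ZA

open Pool.Agent.Helper98.ZA
open Pool.Agent.Helper16.MD (ST_WMR wmr_shift)

/-- the indicator function of a residue class -/
noncomputable def cc (m a n : ℕ) : ℂ := if n % m = a then 1 else 0

theorem cc_norm (m a n : ℕ) : ‖cc m a n‖ ≤ 1 := by
  unfold cc
  split_ifs <;> simp

theorem cc_per (m a n : ℕ) : cc m a (n + m) = cc m a n := by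
  unfold cc
  rw [Nat.add_mod_right]

theorem prog (f : ℕ → ℂ) (m x r : ℕ) (hr : r < m) (J : ℕ) :
    ∑ j ∈ range J, f (x + r + m * j) =
      ∑ i ∈ range (m * J), f (x + i) * cc m ((x + r) % m) (x + i) := by
  induction J with
  | zero => simp
  | succ J ih =>
    rw [sum_range_succ, ih, Nat.mul_succ, sum_range_add]
    congr 1
    rw [Finset.sum_eq_single r]
    · have h1 : (x + (m * J + r)) % m = (x + r) % m := by
        have : x + (m * J + r) = x + r + m * J := by ring
        rw [this, Nat.add_mul_mod_self_left]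
      rw [cc, if_pos h1, mul_one]
      congr 1
      ring
    · intro i hi hir
      have h1 : (x + (m * J + i)) % m = (x + i) % m := by
        have : x + (m * J + i) = x + i + m * J := by ring
        rw [this, Nat.add_mul_mod_self_left]
      have h2 : ¬ (x + (m * J + i)) % m = (x + r) % m := by
        rw [h1]
        intro h
        have h3 : i ≡ r [MOD m] := Nat.ModEq.add_left_cancel' x h
        apply hir
        have h4 := h3
        unfold Nat.ModEq at h4
        rwa [Nat.mod_eq_of_lt (mem_range.1 hi), Nat.mod_eq_of_lt hr] at h4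
      rw [cc, if_neg h2, mul_zero]
    · intro h
      exact absurd (mem_range.2 hr) h

theorem perm (g : ℕ → ℝ) (hg : ∀ a, 0 ≤ g a) (m x : ℕ) (hm : 1 ≤ m) :
    ∑ r ∈ range m, g ((x + r) % m) ≤ ∑ a ∈ range m, g a := by
  have hinj : ∀ i ∈ range m, ∀ j ∈ range m, (x + i) % m = (x + j) % m → i = j := by
    intro i hi j hj h
    have h3 : i ≡ j [MOD m] := Nat.ModEq.add_left_cancel' x h
    have h4 := h3
    unfold Nat.ModEq at h4
    rwa [Nat.mod_eq_of_lt (mem_range.1 hi), Nat.mod_eq_of_lt (mem_range.1 hj)] at h4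
  rw [← Finset.sum_image (f := g) (g := fun r => (x + r) % m) hinj]
  refine sum_le_sum_of_subset_of_nonneg ?_ fun n _ _ => hg n
  intro a ha
  obtain ⟨r, -, rfl⟩ := mem_image.1 ha
  exact mem_range.2 (Nat.mod_lt _ hm)

/-- longer windows -/
theorem longer (F : ℕ → ℂ) (N L t : ℕ) (B : ℝ) (hL : 1 ≤ L)
    (h : ∑ n ∈ range (N + t * L), ‖∑ j ∈ range L, F (n + j)‖ ≤ B) :
    ∑ x ∈ range N, ‖∑ i ∈ range (t * L), F (x + i)‖ ≤ t * B := by
  have h1 : ∀ x, ‖∑ i ∈ range (t * L), F (x + i)‖ ≤
      ∑ s ∈ range t, ‖∑ j ∈ range L, F (x + s * L + j)‖ := by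
    intro x
    have h2 : ∑ i ∈ range (t * L), F (x + i) =
        ∑ s ∈ range t, ∑ j ∈ range L, F (x + s * L + j) := by
      clear h
      induction t with
      | zero => simp
      | succ t ih =>
        rw [Nat.succ_mul, sum_range_add, ih, sum_range_succ]
        congr 1
        refine sum_congr rfl fun j _ => ?_
        congr 1
        ring
    rw [h2]
    exact norm_sum_le _ _
  calc ∑ x ∈ range N, ‖∑ i ∈ range (t * L), F (x + i)‖
      ≤ ∑ x ∈ range N, ∑ s ∈ range t, ‖∑ j ∈ range L, F (x + s * L + j)‖ :=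
        sum_le_sum fun x _ => h1 x
    _ = ∑ s ∈ range t, ∑ x ∈ range N, ‖∑ j ∈ range L, F (x + s * L + j)‖ := sum_comm
    _ ≤ ∑ s ∈ range t, B := by
        refine sum_le_sum fun s hs => ?_
        refine le_trans ?_ h
        exact wmr_shift (fun n => ‖∑ j ∈ range L, F (n + j)‖) (fun n => norm_nonneg _) N (t * L)
          (s * L) (Nat.mul_lt_mul_of_pos_right (mem_range.1 hs) hL)
    _ = t * B := by rw [sum_const, card_range, nsmul_eq_mul]

theorem zmr_of_wmr (h : ST_WMR) : ST_ZMR := by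
  intro m δ hm hδ
  have hm0 : (0 : ℝ) < m := by exact_mod_cast hm
  obtain ⟨L, N₀, hL, hW⟩ := h m (δ / (2 * m)) hm (by positivity)
  have hL0 : (0 : ℝ) < L := by exact_mod_cast hL
  refine ⟨L, hL, ?_⟩
  filter_upwards [eventually_ge_atTop N₀, eventually_ge_atTop (m * L)] with N hN hN2
  have hNr : (m : ℝ) * L ≤ N := by exact_mod_cast hN2
  set f : ℕ → ℂ := fun n => ((ArithmeticFunction.moebius n : ℤ) : ℂ) with hf
  have e1 : ∀ x, ∑ r ∈ range m, ‖∑ j ∈ range L, f (x + r + m * j)‖ ≤
      ∑ a ∈ range m, ‖∑ i ∈ range (m * L), f (x + i) * cc m a (x + i)‖ := by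
    intro x
    have := perm (fun a => ‖∑ i ∈ range (m * L), f (x + i) * cc m a (x + i)‖)
      (fun a => norm_nonneg _) m x hm
    refine le_trans (le_of_eq ?_) this
    refine sum_congr rfl fun r hr => ?_
    rw [prog f m x r (mem_range.1 hr) L]
  have e2 : ∀ a, ∑ x ∈ range N, ‖∑ i ∈ range (m * L), f (x + i) * cc m a (x + i)‖ ≤
      m * (δ / (2 * m) * L * ((N + m * L : ℕ) : ℝ)) := by
    intro a
    refine longer (fun n => f n * cc m a n) N L m _ hL ?_
    exact hW (N + m * L) (cc m a) (by omega) (cc_norm m a) (cc_per m a)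
  calc ∑ x ∈ range N, ∑ r ∈ range m, ‖∑ j ∈ range L, f (x + r + m * j)‖
      ≤ ∑ x ∈ range N, ∑ a ∈ range m, ‖∑ i ∈ range (m * L), f (x + i) * cc m a (x + i)‖ :=
        sum_le_sum fun x _ => e1 x
    _ = ∑ a ∈ range m, ∑ x ∈ range N, ‖∑ i ∈ range (m * L), f (x + i) * cc m a (x + i)‖ :=
        sum_comm
    _ ≤ ∑ a ∈ range m, m * (δ / (2 * m) * L * ((N + m * L : ℕ) : ℝ)) :=
        sum_le_sum fun a _ => e2 a
    _ = m * (m * (δ / (2 * m) * L * ((N + m * L : ℕ) : ℝ))) := by
        rw [sum_const, card_range, nsmul_eq_mul]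
    _ = m * L * δ * (((N + m * L : ℕ) : ℝ) / 2) := by field_simp
    _ ≤ m * L * δ * N := by
        refine mul_le_mul_of_nonneg_left ?_ (by positivity)
        push_cast
        linarith
    _ = δ * (m * L * N) := by ring

theorem st_ZMR (h : Pool.Agent.Helper40.MR.ST_NT) : ST_ZMR :=
  zmr_of_wmr (Pool.Agent.Helper16.MD.st_WMR h)

end Pool.Agent.Helper73.ZA
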