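import Pool.Agent.Helper98.ZA.Stmts
import Pool.Agent.Helper98.TA.Basic
import Pool.Agent.Helper49.ZA.ZTR

/-!
Sheet ZA (MP_7a8f48_an): row ZFT, the periodic part of an ergodic tower.
-/

set_option linter.unusedSectionVars false

open MeasureTheory Filter Topology Finset
open scoped ComplexConjugate

namespace Pool.Agent.Helper73.ZA

open Pool.Agent.Helper98.TW
open Pool.Agent.Helper98.TA
open Pool.Agent.Helper98.ZA (Pe ST_ZFT ST_ZTB ST_ZTR)
open Pool.Agent.Helper40.TWM (St)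

section cyc

variable {Ω : Type} [m0 : MeasurableSpace Ω] {μ : Measure Ω} [IsProbabilityMeasure μ] {S : Ω → Ω}

/-- a set whose first `d` inverse images are a partition -/
structure Cy (μ : Measure Ω) (S : Ω → Ω) (d : ℕ) (C : Set Ω) : Prop where
  pos : 1 ≤ d
  meas : MeasurableSet C
  mass : (d : ENNReal) * μ C = 1
  per : (S^[d]) ⁻¹' C =ᵐ[μ] C
  disj : ∀ i, 0 < i → i < d → μ (C ∩ S^[i] ⁻¹' C) = 0
  cov : ∀ᵐ x ∂μ, ∃ i < d, S^[i] x ∈ C

/-- an algebra of periodic sets -/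
structure Al (μ : Measure Ω) (S : Ω → Ω) (F : Set Ω → Prop) : Prop where
  meas : ∀ C, F C → MeasurableSet C
  per : ∀ C, F C → ∃ n, 1 ≤ n ∧ S^[n] ⁻¹' C =ᵐ[μ] C
  univ : F Set.univ
  inter : ∀ C C', F C → F C' → F (C ∩ C')
  diff : ∀ C C', F C → F C' → F (C \ C')
  pre : ∀ C, F C → F (S ⁻¹' C)

theorem Al.iter {F : Set Ω → Prop} (h : Al μ S F) {C : Set Ω} (hC : F C) (n : ℕ) :
    F (S^[n] ⁻¹' C) := by
  induction n with
  | zero => simpa using hC
  | succ n ih =>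
    have e : S^[n + 1] ⁻¹' C = S ⁻¹' (S^[n] ⁻¹' C) := by
      ext x
      simp only [Set.mem_preimage, Function.iterate_succ_apply]
    rw [e]
    exact h.pre _ ih

/-- atoms are cyclic -/
theorem atom {F : Set Ω → Prop} (hS : Ergodic S μ) (h : Al μ S F) {α : ENNReal} (hα : α ≠ 0)
    (hF : ∀ C, F C → μ C ≠ 0 → α ≤ μ C) :
    ∃ (d : ℕ) (C : Set Ω), F C ∧ Cy μ S d C ∧ ∀ C', F C' → μ (C ∩ C') = 0 ∨ μ (C \ C') = 0 := by
  have hmp : MeasurePreserving S μ μ := hS.toMeasurePreserving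
  obtain ⟨β, hβ⟩ : ∃ β : ENNReal, β = ⨅ (C : Set Ω) (_ : F C) (_ : μ C ≠ 0), μ C := ⟨_, rfl⟩
  have hβ1 : β ≤ 1 := by
    rw [hβ]
    refine (iInf_le _ Set.univ).trans ?_
    refine (iInf_le _ h.univ).trans ?_
    refine (iInf_le _ (by simp)).trans ?_
    simp
  have hβ0 : β ≠ 0 := by
    intro h0
    apply hα
    refine le_antisymm ?_ zero_le
    rw [← h0, hβ]
    exact le_iInf fun C => le_iInf fun hC => le_iInf fun hC' => hF C hC hC'
  have hle : ∀ C, F C → μ C ≠ 0 → β ≤ μ C := by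
    intro C hC hC'
    rw [hβ]
    exact (iInf_le _ C).trans ((iInf_le _ hC).trans (iInf_le _ hC'))
  have hβt : β ≠ ⊤ := ne_top_of_le_ne_top ENNReal.one_ne_top hβ1
  have hlt : β < β + β := ENNReal.lt_add_right hβt hβ0
  obtain ⟨C, hC, hC0, hCl⟩ : ∃ C, F C ∧ μ C ≠ 0 ∧ μ C < β + β := by
    by_contra hcon
    push Not at hcon
    apply absurd hlt
    rw [not_lt]
    conv_rhs => rw [hβ]
    exact le_iInf fun C => le_iInf fun hC => le_iInf fun hC' => hcon C hC hC'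
  have hatom : ∀ C', F C' → μ (C ∩ C') = 0 ∨ μ (C \ C') = 0 := by
    intro C' hC'
    by_contra hcon
    push Not at hcon
    have h1 := hle _ (h.inter C C' hC hC') hcon.1
    have h2 := hle _ (h.diff C C' hC hC') hcon.2
    have h3 : μ (C ∩ C') + μ (C \ C') = μ C := measure_inter_add_sdiff C (h.meas _ hC')
    exact absurd hCl (not_lt.2 (h3 ▸ add_le_add h1 h2))
  -- the order
  have hex : ∃ d : ℕ, 1 ≤ d ∧ μ (C ∩ S^[d] ⁻¹' C) ≠ 0 := by
    obtain ⟨n, hn, hper⟩ := h.per C hC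
    refine ⟨n, hn, ?_⟩
    have e1 : (C ∩ S^[n] ⁻¹' C : Set Ω) =ᵐ[μ] (C ∩ C : Set Ω) := (ae_eq_refl C).inter hper
    rw [measure_congr e1, Set.inter_self]
    exact hC0
  classical
  obtain ⟨d, hd1, hdC, hdm⟩ : ∃ d : ℕ, 1 ≤ d ∧ μ (C ∩ S^[d] ⁻¹' C) ≠ 0 ∧
      ∀ i, 0 < i → i < d → μ (C ∩ S^[i] ⁻¹' C) = 0 := by
    refine ⟨Nat.find hex, (Nat.find_spec hex).1, (Nat.find_spec hex).2, fun i hi hid => ?_⟩
    by_contra hne
    exact Nat.find_min hex hid ⟨hi, hne⟩
  have hmC : MeasurableSet C := h.meas C hC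
  have hmi : ∀ i : ℕ, MeasurableSet (S^[i] ⁻¹' C) := fun i => h.meas _ (h.iter hC i)
  have hmu : ∀ i : ℕ, μ (S^[i] ⁻¹' C) = μ C := fun i =>
    (hmp.iterate i).measure_preimage hmC.nullMeasurableSet
  have hper : S^[d] ⁻¹' C =ᵐ[μ] C := by
    have h1 : μ (C \ S^[d] ⁻¹' C) = 0 := (hatom _ (h.iter hC d)).resolve_left hdC
    have h2 : C ≤ᵐ[μ] S^[d] ⁻¹' C := ae_le_set.2 h1
    exact (ae_eq_of_ae_subset_of_measure_ge h2 (hmu d).le hmC.nullMeasurableSet
      (measure_ne_top _ _)).symm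
  -- the union
  obtain ⟨V, hV⟩ : ∃ V : Set Ω, V = ⋃ i ∈ range d, S^[i] ⁻¹' C := ⟨_, rfl⟩
  have hVm : MeasurableSet V := hV ▸ Finset.measurableSet_biUnion _ fun i _ => hmi i
  have hVS : S ⁻¹' V ≤ᵐ[μ] V := by
    filter_upwards [hper] with x hx hxV
    have hxV' : S x ∈ V := hxV
    show x ∈ V
    rw [hV, Set.mem_iUnion₂] at hxV' ⊢
    obtain ⟨i, hi, hix⟩ := hxV'
    rw [mem_range] at hi
    rw [Set.mem_preimage, ← Function.iterate_succ_apply] at hix
    by_cases hid : i + 1 < d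
    · exact ⟨i + 1, mem_range.2 hid, hix⟩
    · have : i + 1 = d := by omega
      rw [Nat.succ_eq_add_one, this] at hix
      refine ⟨0, mem_range.2 (by omega), ?_⟩
      have hx' : (S^[d] x ∈ C) = (x ∈ C) := hx
      simpa using hx' ▸ hix
  have hVu : V =ᵐ[μ] Set.univ := by
    rcases hS.ae_empty_or_univ_of_preimage_ae_le hVm.nullMeasurableSet hVS with h1 | h1
    · exfalso
      apply hC0
      refine measure_mono_null ?_ (measure_congr h1 ▸ measure_empty)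
      rw [hV]
      intro x hx
      rw [Set.mem_iUnion₂]
      exact ⟨0, mem_range.2 (by omega), by simpa using hx⟩
    · exact h1
  have hmass : (d : ENNReal) * μ C = 1 := by
    have h1 : μ V = ∑ i ∈ range d, μ (S^[i] ⁻¹' C) := by
      rw [hV]
      refine measure_biUnion_finset₀ ?_ fun i _ => (hmi i).nullMeasurableSet
      have key : ∀ i j : ℕ, i < j → j < d → μ (S^[i] ⁻¹' C ∩ S^[j] ⁻¹' C) = 0 := by
        intro i j hij hj
        have e : S^[i] ⁻¹' C ∩ S^[j] ⁻¹' C = S^[i] ⁻¹' (C ∩ S^[j - i] ⁻¹' C) := by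
          ext x
          simp only [Set.mem_inter_iff, Set.mem_preimage]
          rw [← Function.iterate_add_apply, Nat.sub_add_cancel hij.le]
        rw [e, (hmp.iterate i).measure_preimage (hmC.inter (hmi _)).nullMeasurableSet]
        exact hdm _ (by omega) (by omega)
      intro i hi j hj hij
      have hi' : i < d := by simpa using hi
      have hj' : j < d := by simpa using hj
      show μ (S^[i] ⁻¹' C ∩ S^[j] ⁻¹' C) = 0
      rcases lt_or_gt_of_ne hij with h2 | h2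
      · exact key i j h2 hj'
      · rw [Set.inter_comm]
        exact key j i h2 hi'
    rw [measure_congr hVu, measure_univ] at h1
    rw [h1, Finset.sum_congr rfl fun i _ => hmu i, Finset.sum_const, card_range, nsmul_eq_mul]
  refine ⟨d, C, hC, ⟨hd1, hmC, hmass, hper, hdm, ?_⟩, hatom⟩
  filter_upwards [hVu] with x hx
  have hx' : x ∈ V := by
    have h1 : (x ∈ V) = (x ∈ Set.univ) := hx
    rw [h1]
    trivial
  rw [hV, Set.mem_iUnion₂] at hx'
  obtain ⟨i, hi, hix⟩ := hx'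
  exact ⟨i, mem_range.1 hi, hix⟩

/-- sets of period `n` -/
def In (μ : Measure Ω) (S : Ω → Ω) (n : ℕ) (C : Set Ω) : Prop :=
  MeasurableSet C ∧ S^[n] ⁻¹' C =ᵐ[μ] C

theorem in_al (hmp : MeasurePreserving S μ μ) {n : ℕ} (hn : 1 ≤ n) : Al μ S (In μ S n) where
  meas := fun _ h => h.1
  per := fun _ h => ⟨n, hn, h.2⟩
  univ := ⟨MeasurableSet.univ, by simp⟩
  inter := fun C C' h h' => ⟨h.1.inter h'.1, by
    rw [Set.preimage_inter]
    exact h.2.inter h'.2⟩
  diff := fun C C' h h' => ⟨h.1.diff h'.1, by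
    rw [Set.preimage_sdiff]
    exact h.2.diff h'.2⟩
  pre := fun C h => ⟨hmp.measurable h.1, by
    have e : S^[n] ⁻¹' (S ⁻¹' C) = S ⁻¹' (S^[n] ⁻¹' C) := by
      ext x
      simp only [Set.mem_preimage]
      rw [← Function.iterate_succ_apply S n x, Function.iterate_succ_apply' S n x]
    rw [e]
    exact hmp.quasiMeasurePreserving.preimage_ae_eq h.2⟩

theorem in_iter (hmp : MeasurePreserving S μ μ) {n : ℕ} {C : Set Ω} (h : In μ S n C) (k : ℕ) :
    In μ S (n * k) C := by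
  refine ⟨h.1, ?_⟩
  induction k with
  | zero => simp
  | succ k ih =>
    have e : S^[n * (k + 1)] ⁻¹' C = S^[n] ⁻¹' (S^[n * k] ⁻¹' C) := by
      ext x
      simp only [Set.mem_preimage]
      rw [← Function.iterate_add_apply]
      rfl
    rw [e]
    exact ((hmp.iterate n).quasiMeasurePreserving.preimage_ae_eq ih).trans h.2

theorem in_mass (hS : Ergodic S μ) {n : ℕ} {C : Set Ω} (h : In μ S n C) (hC : μ C ≠ 0)
    (hn : 1 ≤ n) : (n : ENNReal)⁻¹ ≤ μ C := by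
  have hmp : MeasurePreserving S μ μ := hS.toMeasurePreserving
  have hA := in_al (μ := μ) hmp hn
  have hmi : ∀ i : ℕ, MeasurableSet (S^[i] ⁻¹' C) := fun i => hA.meas _ (hA.iter h i)
  obtain ⟨V, hV⟩ : ∃ V : Set Ω, V = ⋃ i ∈ range n, S^[i] ⁻¹' C := ⟨_, rfl⟩
  have hVm : MeasurableSet V := hV ▸ Finset.measurableSet_biUnion _ fun i _ => hmi i
  have hVS : S ⁻¹' V ≤ᵐ[μ] V := by
    filter_upwards [h.2] with x hx hxV
    have hxV' : S x ∈ V := hxV
    show x ∈ V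
    rw [hV, Set.mem_iUnion₂] at hxV' ⊢
    obtain ⟨i, hi, hix⟩ := hxV'
    rw [mem_range] at hi
    rw [Set.mem_preimage, ← Function.iterate_succ_apply] at hix
    by_cases hid : i + 1 < n
    · exact ⟨i + 1, mem_range.2 hid, hix⟩
    · have : i + 1 = n := by omega
      rw [Nat.succ_eq_add_one, this] at hix
      refine ⟨0, mem_range.2 (by omega), ?_⟩
      have hx' : (S^[n] x ∈ C) = (x ∈ C) := hx
      simpa using hx' ▸ hix
  have hVu : μ V = 1 := by
    rcases hS.ae_empty_or_univ_of_preimage_ae_le hVm.nullMeasurableSet hVS with h1 | h1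
    · exfalso
      apply hC
      refine measure_mono_null ?_ (measure_congr h1 ▸ measure_empty)
      rw [hV]
      intro x hx
      rw [Set.mem_iUnion₂]
      exact ⟨0, mem_range.2 (by omega), by simpa using hx⟩
    · rw [measure_congr h1, measure_univ]
  have h2 : μ V ≤ n * μ C := by
    rw [hV]
    refine (measure_biUnion_finset_le _ _).trans ?_
    rw [Finset.sum_congr rfl fun i _ => (hmp.iterate i).measure_preimage h.1.nullMeasurableSet,
      Finset.sum_const, card_range, nsmul_eq_mul]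
  rw [hVu] at h2
  rw [ENNReal.inv_le_iff_le_mul (fun _ => by simpa using by omega) (fun hh => by simp at hh)]
  exact h2

/-- the eigenfunction of a cyclic set -/
theorem cyc_eig (hmp : MeasurePreserving S μ μ) {d : ℕ} {C : Set Ω} (h : Cy μ S d C) :
    ∃ (ζ : ℂ) (ψ : Ω → ℂ), IsPrimitiveRoot ζ d ∧ UF μ ψ ∧ (∀ᵐ x ∂μ, ψ x = ζ * ψ (S x)) ∧
      ∀ᵐ x ∂μ, ψ x ^ d = 1 := by
  classical
  have hd : d ≠ 0 := by have := h.pos; omega
  obtain ⟨ζ, hζ⟩ : ∃ ζ : ℂ, IsPrimitiveRoot ζ d := ⟨_, Complex.isPrimitiveRoot_exp d hd⟩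
  have hmi : ∀ i : ℕ, MeasurableSet (S^[i] ⁻¹' C) := fun i => (hmp.iterate i).measurable h.meas
  obtain ⟨ψ, hψ⟩ : ∃ ψ : Ω → ℂ, ψ = fun x => ∑ i ∈ range d, ζ ^ i * (S^[i] ⁻¹' C).indicator 1 x :=
    ⟨_, rfl⟩
  have hun : ∀ᵐ x ∂μ, ∀ i < d, ∀ j < d, S^[i] x ∈ C → S^[j] x ∈ C → i = j := by
    have key : ∀ i j : ℕ, i < j → j < d → μ (S^[i] ⁻¹' C ∩ S^[j] ⁻¹' C) = 0 := by
      intro i j hij hj
      have e : S^[i] ⁻¹' C ∩ S^[j] ⁻¹' C = S^[i] ⁻¹' (C ∩ S^[j - i] ⁻¹' C) := by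
        ext x
        simp only [Set.mem_inter_iff, Set.mem_preimage]
        rw [← Function.iterate_add_apply, Nat.sub_add_cancel hij.le]
      rw [e, (hmp.iterate i).measure_preimage (h.meas.inter (hmi _)).nullMeasurableSet]
      exact h.disj _ (by omega) (by omega)
    have h1 : ∀ᵐ x ∂μ, ∀ i j : ℕ, i < j → j < d → ¬ (x ∈ S^[i] ⁻¹' C ∩ S^[j] ⁻¹' C) := by
      rw [ae_all_iff]
      intro i
      rw [ae_all_iff]
      intro j
      by_cases hij : i < j
      · by_cases hj : j < d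
        · filter_upwards [measure_eq_zero_iff_ae_notMem.1 (key i j hij hj)] with x hx _ _
          exact hx
        · exact Eventually.of_forall fun x _ h2 => absurd h2 hj
      · exact Eventually.of_forall fun x h2 => absurd h2 hij
    filter_upwards [h1] with x hx i hi j hj hiC hjC
    by_contra hne
    rcases lt_or_gt_of_ne hne with h2 | h2
    · exact hx i j h2 hj ⟨hiC, hjC⟩
    · exact hx j i h2 hi ⟨hjC, hiC⟩
  have hval : ∀ᵐ x ∂μ, ∃ i < d, ψ x = ζ ^ i := by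
    filter_upwards [hun, h.cov] with x hx ⟨i, hi, hiC⟩
    refine ⟨i, hi, ?_⟩
    rw [hψ]
    simp only []
    rw [Finset.sum_eq_single i]
    · rw [Set.indicator_of_mem (show x ∈ S^[i] ⁻¹' C from hiC)]
      simp
    · intro j hj hji
      rw [Set.indicator_of_notMem, mul_zero]
      intro hjC
      exact hji (hx j (mem_range.1 hj) i hi hjC hiC)
    · intro hni
      exact absurd (mem_range.2 hi) hni
  have hζn : ‖ζ‖ = 1 := hζ.norm'_eq_one hd
  refine ⟨ζ, ψ, hζ, ⟨?_, ?_⟩, ?_, ?_⟩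
  · rw [hψ]
    refine Finset.measurable_sum _ fun i _ => ?_
    exact (measurable_one.indicator (hmi i)).const_mul _
  · filter_upwards [hval] with x ⟨i, _, hx⟩
    rw [hx, norm_pow, hζn, one_pow]
  · filter_upwards [h.per] with x hx
    have hx' : (S^[d] x ∈ C) = (x ∈ C) := hx
    have e1 : ζ * ψ (S x) = ∑ i ∈ range d, ζ ^ (i + 1) * (S^[i + 1] ⁻¹' C).indicator 1 x := by
      rw [hψ, Finset.mul_sum]
      refine Finset.sum_congr rfl fun i _ => ?_
      rw [pow_succ']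
      have e2 : (S^[i] ⁻¹' C).indicator (1 : Ω → ℂ) (S x) =
          (S^[i + 1] ⁻¹' C).indicator (1 : Ω → ℂ) x := by
        simp only [Set.indicator, Set.mem_preimage, Function.iterate_succ_apply, Pi.one_apply]
      rw [e2, mul_assoc]
    have e3 := Finset.sum_range_succ (fun i => ζ ^ i * (S^[i] ⁻¹' C).indicator (1 : Ω → ℂ) x) d
    have e4 := Finset.sum_range_succ' (fun i => ζ ^ i * (S^[i] ⁻¹' C).indicator (1 : Ω → ℂ) x) d
    have e5 : (S^[d] ⁻¹' C).indicator (1 : Ω → ℂ) x = (S^[0] ⁻¹' C).indicator (1 : Ω → ℂ) x := by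
      simp only [Set.indicator, Set.mem_preimage, Pi.one_apply, Function.iterate_zero, id_eq]
      simp only [hx']
    rw [hζ.pow_eq_one, e5] at e3
    rw [pow_zero] at e4
    rw [e1]
    have e6 : ψ x = ∑ i ∈ range d, ζ ^ i * (S^[i] ⁻¹' C).indicator 1 x := by rw [hψ]
    rw [e6]
    linear_combination e4 - e3
  · filter_upwards [hval] with x ⟨i, _, hx⟩
    rw [hx, ← pow_mul, mul_comm, pow_mul, hζ.pow_eq_one, one_pow]

end cyc

/-- ZFT: the periodic part of an ergodic tower. -/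
theorem st_ZFT (ztb : ST_ZTB) (ztr : ST_ZTR) : ST_ZFT := by
  intro Ω _ μ _ S S' u A N hS he hTr
  have hmp : MeasurePreserving S μ μ := hS.mp
  obtain ⟨m₀, hm₀, hb⟩ := ztb Ω μ S S' u A N hS he hTr
  -- the orders of cyclic sets divide `m₀`
  have hdvd : ∀ (d : ℕ) (C : Set Ω), Cy μ S d C → d ∣ m₀ := by
    intro d C hC
    obtain ⟨ζ, ψ, hζ, uψ, hψ1, hψ2⟩ := cyc_eig hmp hC
    have hd : d ≠ 0 := by have := hC.pos; omega
    have hinc : Inc μ bo S ψ := by
      refine am_bo.2 ⟨conj ζ, ?_⟩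
      have h2 : ∀ᵐ x ∂μ, ‖ψ (S x)‖ = 1 := hmp.quasiMeasurePreserving.ae uψ.2
      filter_upwards [hψ1, h2] with x hx hx2
      rw [hx, map_mul]
      have e : ψ (S x) * conj (ψ (S x)) = 1 := by
        rw [Complex.mul_conj, Complex.normSq_eq_norm_sq, hx2]
        norm_num
      linear_combination (conj ζ) * e
    have h3 := hb ψ uψ hinc d (Nat.one_le_iff_ne_zero.2 hd)
      (am_bo.2 ⟨1, by filter_upwards [hψ2] with x hx using hx⟩)
    obtain ⟨c, hc⟩ := am_bo.1 h3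
    have h4 : ∀ᵐ x ∂μ, ψ (S x) ^ m₀ = c := hmp.quasiMeasurePreserving.ae hc
    obtain ⟨x, hx1, hx2, hx3, hx4⟩ := (hc.and (h4.and (hψ1.and uψ.2))).exists
    have hx1' : ψ x ^ m₀ = c := hx1
    have hc0 : c ≠ 0 := by
      rw [← hx1']
      refine pow_ne_zero _ ?_
      rw [← norm_ne_zero_iff, hx4]
      exact one_ne_zero
    have h5 : ζ ^ m₀ = 1 := by
      have h6 : ζ ^ m₀ * c = 1 * c := by
        rw [one_mul, ← hx2, ← mul_pow, ← hx3]
        rw [hx1', hx2]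
      exact mul_right_cancel₀ hc0 h6
    exact hζ.dvd_of_pow_eq_one _ h5
  -- lower bound of the measures
  have hlow : ∀ n, 1 ≤ n → ∀ C, In μ S n C → μ C ≠ 0 → (m₀ : ENNReal)⁻¹ ≤ μ C := by
    intro n hn C hC hC0
    have hA := in_al (μ := μ) hmp hn
    obtain ⟨d, D, hD, hDc, hDa⟩ := atom he hA (α := (n : ENNReal)⁻¹) (by simp)
      fun C hC hC0 => in_mass he hC hC0 hn
    have hdm : d ∣ m₀ := hdvd d D hDc
    have hdle : d ≤ m₀ := Nat.le_of_dvd (by omega) hdm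
    have hd1 := hDc.pos
    have hDmass : μ D = (d : ENNReal)⁻¹ := by
      have h1 := hDc.mass
      rw [mul_comm] at h1
      exact ENNReal.eq_inv_of_mul_eq_one_left h1
    have hle : (m₀ : ENNReal)⁻¹ ≤ μ D := by
      rw [hDmass]
      exact ENNReal.inv_le_inv.2 (by exact_mod_cast hdle)
    refine hle.trans ?_
    -- some preimage of `D` meets `C`
    obtain ⟨j, hj, hjC⟩ : ∃ j < d, μ (C ∩ S^[j] ⁻¹' D) ≠ 0 := by
      by_contra hcon
      push Not at hcon
      apply hC0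
      have h1 : ∀ᵐ x ∂μ, ∀ j < d, ¬ (x ∈ C ∩ S^[j] ⁻¹' D) := by
        rw [ae_all_iff]
        intro j
        by_cases hj : j < d
        · filter_upwards [measure_eq_zero_iff_ae_notMem.1 (hcon j hj)] with x hx _
          exact hx
        · exact Eventually.of_forall fun x h2 => absurd h2 hj
      rw [measure_eq_zero_iff_ae_notMem]
      filter_upwards [h1, hDc.cov] with x hx ⟨i, hi, hiD⟩ hxC
      exact hx i hi ⟨hxC, hiD⟩
    have hCi : In μ S n (S^[d - j] ⁻¹' C) := hA.iter hC (d - j)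
    have h2 : μ (D ∩ S^[d - j] ⁻¹' C) ≠ 0 := by
      have e1 : S^[d - j] ⁻¹' (C ∩ S^[j] ⁻¹' D) =ᵐ[μ] (S^[d - j] ⁻¹' C ∩ D : Set Ω) := by
        have e2 : S^[d - j] ⁻¹' (C ∩ S^[j] ⁻¹' D) = S^[d - j] ⁻¹' C ∩ S^[d] ⁻¹' D := by
          ext x
          simp only [Set.mem_inter_iff, Set.mem_preimage]
          rw [← Function.iterate_add_apply, Nat.add_sub_cancel' hj.le]
        rw [e2]
        exact (ae_eq_refl _).inter hDc.per
      rw [Set.inter_comm, ← measure_congr e1, (hmp.iterate (d - j)).measure_preimage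
        (hC.1.inter ((hmp.iterate j).measurable hDc.meas)).nullMeasurableSet]
      exact hjC
    have h3 : μ (D \ S^[d - j] ⁻¹' C) = 0 := (hDa _ hCi).resolve_left h2
    have h4 : μ (S^[d - j] ⁻¹' C) = μ C :=
      (hmp.iterate (d - j)).measure_preimage hC.1.nullMeasurableSet
    rw [← h4]
    exact measure_mono_ae (ae_le_set.2 h3)
  -- all periodic sets
  obtain ⟨F, hFd⟩ : ∃ F : Set Ω → Prop, F = fun C => ∃ n, 1 ≤ n ∧ In μ S n C := ⟨_, rfl⟩
  have hFA : Al μ S F := by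
    rw [hFd]
    refine ⟨fun C ⟨n, _, h⟩ => h.1, fun C ⟨n, hn, h⟩ => ⟨n, hn, h.2⟩,
      ⟨1, le_rfl, (in_al hmp le_rfl).univ⟩, ?_, ?_, ?_⟩
    · rintro C C' ⟨n, hn, h⟩ ⟨n', hn', h'⟩
      refine ⟨n * n', Nat.mul_pos hn hn', ?_⟩
      exact (in_al hmp (Nat.mul_pos hn hn')).inter C C' (in_iter hmp h n')
        (mul_comm n' n ▸ in_iter hmp h' n)
    · rintro C C' ⟨n, hn, h⟩ ⟨n', hn', h'⟩
      refine ⟨n * n', Nat.mul_pos hn hn', ?_⟩
      exact (in_al hmp (Nat.mul_pos hn hn')).diff C C' (in_iter hmp h n')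
        (mul_comm n' n ▸ in_iter hmp h' n)
    · rintro C ⟨n, hn, h⟩
      exact ⟨n, hn, (in_al hmp hn).pre C h⟩
  obtain ⟨d, B, hB, hBc, hBa⟩ := atom he hFA (α := (m₀ : ENNReal)⁻¹) (by simp) (by
    rw [hFd]
    rintro C ⟨n, hn, h⟩ hC0
    exact hlow n hn C h hC0)
  have hB0 : μ B ≠ 0 := by
    intro h0
    have h1 := hBc.mass
    rw [h0, mul_zero] at h1
    exact zero_ne_one h1
  obtain ⟨-, A', hA'⟩ := ztr Ω μ S S' u A N d B hS hTr hBc.meas (pos_iff_ne_zero.2 hB0) hBc.per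
  have hper : ∀ k : ℕ, S^[d * k] ⁻¹' B =ᵐ[μ] B := fun k =>
    (in_iter hmp (n := d) ⟨hBc.meas, hBc.per⟩ k).2
  have hsys : ∀ k : ℕ, Sys (ProbabilityTheory.cond μ B) (S^[d])^[k] (S'^[d])^[k] := by
    intro k
    rw [← Function.iterate_mul, ← Function.iterate_mul]
    exact Pool.Agent.Helper49.ZA.sys_cond (hS.iterate (d * k)) hBc.meas (hper k)
  refine ⟨d, B, hBc.pos, hBc.meas, hBc.mass, hBc.per, hBc.disj, ⟨hsys, ?_⟩, A', hA'⟩
  intro k hk
  refine ⟨(hsys k).mp, ⟨?_⟩⟩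
  intro s hs hinv
  rw [← Function.iterate_mul] at hinv
  have hFs : F s := by
    rw [hFd]
    exact ⟨d * k, Nat.mul_pos hBc.pos hk, hs, by rw [hinv]⟩
  rw [eventuallyConst_set']
  rcases hBa s hFs with h1 | h1
  · left
    rw [ae_eq_empty, ProbabilityTheory.cond_apply hBc.meas, h1, mul_zero]
  · right
    rw [ae_eq_univ, ProbabilityTheory.cond_apply hBc.meas]
    have e : B ∩ sᶜ = B \ s := rfl
    rw [e, h1, mul_zero]

end Pool.Agent.Helper73.ZA
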